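import Pool.Agent.TH47.SG.Swap
import Pool.Agent.TH47.SG.Width

/-!
# MP_eff680_pr: balls and complements of balls are not optimal in the symmetric Gaussian problem

`gam n` is the standard Gaussian measure on `ℝⁿ`, `corr ρ A B = P[x ∈ A, y ∈ B]` for a pair of
`ρ`-correlated Gaussians, `mn n ρ μ ν` is the infimum of the problem, `ball n r` the closed centred
Euclidean ball of radius `r`, `strip n b = {x | |x 0| ≤ b}`. The definitions are in
`Pool.Agent.TH47.SG.Defs`.
-/

namespace Pool.Agent.Results.MP_eff680_pr.StripsBeatBalls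

open MeasureTheory Pool.Agent.TH47.SG

/-- Let `0 < ρ < 1` and `0 < μ < 1`. For all sufficiently small `ν > 0`, the strip `S = strip n b`
of measure `μ` and the complement `T = (strip n a)ᶜ` of a strip, of measure `ν`, give a smaller
value of `P[x ∈ A, y ∈ B]` than a centred ball and the complement of a centred ball of the same
measures: in dimension `n ≥ 2` than both (ball of measure `μ`, complement of measure `ν`) and
(complement of measure `μ`, ball of measure `ν`), in dimension `1` than the latter; the same with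
the order of the two sets reversed. So these pairs of balls and complements of balls do not attain
the infimum `mn`. Centred balls of all these measures exist and are unique. -/
theorem result (n : ℕ) [NeZero n] (ρ : ℝ) (h0 : 0 < ρ) (h1 : ρ < 1) (μ : ℝ) (hμ0 : 0 < μ)
    (hμ1 : μ < 1) :
    ∃ ε : ℝ, 0 < ε ∧ ∀ ν : ℝ, 0 < ν → ν < ε →
      ((∃! r : ℝ, 0 < r ∧ (gam n).real (ball n r) = μ) ∧
        (∃! r : ℝ, 0 < r ∧ (gam n).real (ball n r)ᶜ = μ) ∧
        (∃! t : ℝ, 0 < t ∧ (gam n).real (ball n t) = ν) ∧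
        ∃! t : ℝ, 0 < t ∧ (gam n).real (ball n t)ᶜ = ν) ∧
      ∃ b a : ℝ, (gam n).real (strip n b) = μ ∧ (gam n).real (strip n a)ᶜ = ν ∧
        mn n ρ μ ν ≤ corr ρ (strip n b) (strip n a)ᶜ ∧
        mn n ρ ν μ ≤ corr ρ (strip n a)ᶜ (strip n b) ∧
        (∀ r t : ℝ, 0 < r → 0 < t → (gam n).real (ball n r)ᶜ = μ → (gam n).real (ball n t) = ν →
          corr ρ (strip n b) (strip n a)ᶜ < corr ρ (ball n r)ᶜ (ball n t) ∧
          corr ρ (strip n a)ᶜ (strip n b) < corr ρ (ball n t) (ball n r)ᶜ) ∧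
        (2 ≤ n → ∀ r t : ℝ, 0 < r → 0 < t →
          (gam n).real (ball n r) = μ → (gam n).real (ball n t)ᶜ = ν →
          corr ρ (strip n b) (strip n a)ᶜ < corr ρ (ball n r) (ball n t)ᶜ ∧
          corr ρ (strip n a)ᶜ (strip n b) < corr ρ (ball n t)ᶜ (ball n r)) := by
  have hcs : ∀ (b : ℝ) (x : Fin n → ℝ), x ∈ (strip n b)ᶜ ↔ -x ∈ (strip n b)ᶜ := fun b x =>
    not_congr (strip_symm n b x)
  have hco : ∀ m : ℝ, 0 < m → m < 1 → ∃! r : ℝ, 0 < r ∧ (gam n).real (ball n r)ᶜ = m := by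
    intro m hm0 hm1
    obtain ⟨r, ⟨hr0, hr⟩, hu⟩ := exists_unique_ball n (1 - m) (by linarith) (by linarith)
    refine ⟨r, ⟨hr0, by rw [coball_real]; linarith⟩, fun s hs => hu s ⟨hs.1, ?_⟩⟩
    have := hs.2
    rw [coball_real] at this
    linarith
  obtain ⟨r1, ⟨hr1, hr1m⟩, huniq1⟩ := hco μ hμ0 hμ1
  obtain ⟨r2, ⟨hr2, hr2m⟩, huniq2⟩ := exists_unique_ball n μ hμ0 hμ1
  obtain ⟨ε1, hε1, H1⟩ := strips_beat_rev n ρ r1 h0 h1 hr1
  obtain ⟨ε2, hε2, H2⟩ : ∃ ε2 : ℝ, 0 < ε2 ∧ (2 ≤ n → ∀ R : ℝ, 0 ≤ R →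
      (gam n).real (ball n R)ᶜ < ε2 →
      ∃ b a : ℝ, (gam n).real (strip n b) = (gam n).real (ball n r2) ∧
        (gam n).real (strip n a)ᶜ = (gam n).real (ball n R)ᶜ ∧
        corr ρ (strip n b) (strip n a)ᶜ < corr ρ (ball n r2) (ball n R)ᶜ) := by
    by_cases hn : 2 ≤ n
    · obtain ⟨ε2, hε2, H2⟩ := strips_beat_balls n hn ρ r2 h0 h1 hr2
      exact ⟨ε2, hε2, fun _ => H2⟩
    · exact ⟨1, one_pos, fun h => absurd h hn⟩
  refine ⟨min 1 (min ε1 ε2), lt_min one_pos (lt_min hε1 hε2), fun ν hν0 hν => ?_⟩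
  have hν1 : ν < 1 := hν.trans_le (min_le_left _ _)
  have hνε1 : ν < ε1 := hν.trans_le ((min_le_right _ _).trans (min_le_left _ _))
  have hνε2 : ν < ε2 := hν.trans_le ((min_le_right _ _).trans (min_le_right _ _))
  refine ⟨⟨exists_unique_ball n μ hμ0 hμ1, hco μ hμ0 hμ1, exists_unique_ball n ν hν0 hν1,
    hco ν hν0 hν1⟩, ?_⟩
  obtain ⟨b, hb⟩ := exists_strip n μ hμ0 hμ1
  obtain ⟨a, ha'⟩ := exists_strip n (1 - ν) (by linarith) (by linarith)
  have ha : (gam n).real (strip n a)ᶜ = ν := by rw [costrip_real]; linarith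
  have hub : ∀ c : ℝ, (gam n).real (strip n c) = μ → c = b := fun c hc =>
    strip_unique n c b (by rw [hc]; exact hμ0) (by rw [hc, hb])
  have hua : ∀ c : ℝ, (gam n).real (strip n c)ᶜ = ν → c = a := by
    intro c hc
    rw [costrip_real] at hc
    exact strip_unique n c a (by linarith) (by linarith)
  refine ⟨b, a, hb, ha, ?_, ?_, ?_, ?_⟩
  · have h := mn_le ρ _ _ (meas_strip n b) (meas_strip n a).compl (strip_symm n b)
    rwa [hb, ha] at h
  · have h := mn_le ρ _ _ (meas_strip n a).compl (meas_strip n b) (hcs a)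
    rwa [hb, ha] at h
  · intro r t hr ht hrμ htν
    have hrr : r = r1 := huniq1 r ⟨hr, hrμ⟩
    subst hrr
    obtain ⟨b', a', e1, e2, h⟩ := H1 t ht (by rw [htν]; exact hνε1)
    have hb' : b' = b := hub b' (by rw [e1, hrμ])
    have ha'' : a' = a := hua a' (by rw [e2, htν])
    subst hb' ha''
    refine ⟨h, ?_⟩
    rw [corr_swap n ρ h0 h1 _ _ (meas_strip n _).compl (meas_strip n _),
      corr_swap n ρ h0 h1 _ _ (meas_ball n t) (meas_ball n r).compl]
    exact h
  · intro hn r t hr ht hrμ htν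
    have hrr : r = r2 := huniq2 r ⟨hr, hrμ⟩
    subst hrr
    obtain ⟨b', a', e1, e2, h⟩ := H2 hn t ht.le (by rw [htν]; exact hνε2)
    have hb' : b' = b := hub b' (by rw [e1, hrμ])
    have ha'' : a' = a := hua a' (by rw [e2, htν])
    subst hb' ha''
    refine ⟨h, ?_⟩
    rw [corr_swap n ρ h0 h1 _ _ (meas_strip n _).compl (meas_strip n _),
      corr_swap n ρ h0 h1 _ _ (meas_ball n t).compl (meas_ball n r)]
    exact h

end Pool.Agent.Results.MP_eff680_pr.StripsBeatBalls
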